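import Pool.Agent.Y570.OS.MainI

/-!
# All recognition problems between inside obstacles and one connected obstacle are NP-hard

The starting files `InsideObstacleNPHard` and `OutsideObstacleNPHard` show that it is NP-hard to
decide whether a graph has an inside-obstacle (an outside-obstacle) representation. Here this is
proved for all decision problems between inside-obstacle representations and representations with
any connected set of points of the plane as the obstacle, and for the promise problems.
-/

set_option autoImplicit false

namespace Pool.Agent.Results.MP_32fe36_lc.InsideSandwich

open Pool.Agent.NPC Pool.Agent.H679R2 Pool.Agent.H670R5 Pool.Agent.Y570.OS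

/-- (1) Every decision problem `P` about graphs is NP-hard if its answer is yes for all graphs which
have an inside-obstacle representation and only for graphs which have a representation with one
connected obstacle. (2) This holds for inside-obstacle and for single-obstacle representations.
(3) If `P ≠ NP` then no polynomial-time algorithm separates the graphs with an inside-obstacle
representation from the graphs without a representation with one connected obstacle. (4) The same
for outside-obstacle representations. (5) The answers to Q1 and Q2: both problems are NP-hard, and
a polynomial-time algorithm for one of them exists only if `P = NP`. -/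
theorem result :
    (∀ P : List ℕ × List (ℕ × ℕ) → Prop, IsBetween InsideObs P → NPHardP P) ∧
    (IsBetween InsideObs InsideObs ∧ IsBetween InsideObs SingleObs) ∧
    (Separable InsideObs ConnectedObs → PEqNP) ∧
    (Separable OutsideObs ConnectedObs → PEqNP) ∧
    ((NPHardP OutsideObs ∧ (Separable OutsideObs OutsideObs → PEqNP)) ∧
      (NPHardP InsideObs ∧ (Separable InsideObs InsideObs → PEqNP))) :=
  ⟨fun _ h => (hard6 h).toNPHardP, ⟨between_in, between_single_in⟩, sep_in, sep_out',
    ⟨(hard5 between_out).toNPHardP, fun h => sep_out' (sep_mono h fun _ h => out_conn h)⟩,
    ⟨(hard6 between_in).toNPHardP, fun h => sep_in (sep_mono h fun _ h => in_conn h)⟩⟩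

end Pool.Agent.Results.MP_32fe36_lc.InsideSandwich
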